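import Pool.Agent.Q96.ID.Stm

/-!
# Project ID of helper96, job CZ (helper277)
-/

set_option autoImplicit false

open Cardinal Set Q96.ID

namespace Q277.ID.CZ

/-- bounded functions -/
theorem ex_lp {𝕜 : Type} [RCLike 𝕜] {Γ : Type} (f : Γ → 𝕜) (M : ℝ) (hM : 0 ≤ M) (h : ∀ γ, ‖f γ‖ ≤ M) :
    ∃ g : Linf 𝕜 Γ, (∀ γ, g γ = f γ) ∧ ‖g‖ ≤ M := by
  refine ⟨⟨f, memℓp_infty ⟨M, ?_⟩⟩, fun γ => rfl, lp.norm_le_of_forall_le hM h⟩
  rintro _ ⟨γ, rfl⟩
  exact h γ

theorem lc_apply {𝕜 : Type} [RCLike 𝕜] {Γ T : Type} (χ : T → Linf 𝕜 Γ) (c : T →₀ 𝕜) (γ : Γ) :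
    (Finsupp.linearCombination 𝕜 χ c : Linf 𝕜 Γ) γ = ∑ t ∈ c.support, c t * χ t γ := by
  rw [Finsupp.linearCombination_apply, Finsupp.sum, lp.coeFn_sum, Finset.sum_apply]
  exact Finset.sum_congr rfl fun t _ => by
    rw [lp.coeFn_smul, Pi.smul_apply, smul_eq_mul]

/-- a finite union of small sets is small -/
theorem mk_fin_union {κ : Cardinal.{0}} (hκ : ℵ₀ ≤ κ) {Γ ι : Type} (s : Finset ι) (N : ι → Set Γ)
    (h : ∀ i ∈ s, #(N i) < κ) : #((⋃ i ∈ s, N i : Set Γ)) < κ := by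
  classical
  induction s using Finset.induction_on with
  | empty =>
    simp only [Finset.notMem_empty, iUnion_of_empty, iUnion_empty, mk_eq_zero]
    exact lt_of_lt_of_le aleph0_pos hκ
  | insert a s ha ih =>
    rw [Finset.set_biUnion_insert]
    refine lt_of_le_of_lt (mk_union_le _ _) (add_lt_of_lt hκ ?_ ?_)
    · exact h a (Finset.mem_insert_self a s)
    · exact ih fun i hi => h i (Finset.mem_insert_of_mem hi)

theorem t_CZ : S_CZ := by
  intro 𝕜 _ κ hκ Γ T C hC Q _ _ _ π hS hI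
  classical
  have hχ : ∀ t, ∃ g : Linf 𝕜 Γ, (∀ γ, g γ = if γ ∈ C t then 1 else 0) ∧ ‖g‖ ≤ 1 := fun t =>
    ex_lp _ 1 zero_le_one fun γ => by split_ifs <;> simp
  choose χ hχ1 hχ2 using hχ
  have he : ∀ t, ∃ g : Linf 𝕜 T, (∀ s, g s = if s = t then 1 else 0) ∧ ‖g‖ ≤ 1 := fun t =>
    ex_lp _ 1 zero_le_one fun s => by split_ifs <;> simp
  choose ε hε1 hε2 using he
  obtain ⟨W, hWd⟩ : ∃ W : (T →₀ 𝕜) →ₗ[𝕜] Linf 𝕜 Γ, W = Finsupp.linearCombination 𝕜 χ := ⟨_, rfl⟩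
  obtain ⟨J, hJd⟩ : ∃ J : (T →₀ 𝕜) →ₗ[𝕜] Linf 𝕜 T, J = Finsupp.linearCombination 𝕜 ε := ⟨_, rfl⟩
  have hW : ∀ (c : T →₀ 𝕜) (γ : Γ), (W c) γ = ∑ t ∈ c.support, c t * (if γ ∈ C t then 1 else 0) := by
    intro c γ
    rw [hWd, lc_apply]
    exact Finset.sum_congr rfl fun t _ => by rw [hχ1]
  have hJ : ∀ (c : T →₀ 𝕜) (s : T), (J c) s = c s := by
    intro c s
    rw [hJd, lc_apply]
    simp only [hε1, mul_ite, mul_one, mul_zero]
    rw [Finset.sum_ite_eq]
    split_ifs with h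
    · rfl
    · rw [Finsupp.notMem_support_iff.1 h]
  have hb : ∀ c : T →₀ 𝕜, ‖π (W c)‖ ≤ ‖π‖ * ‖J c‖ := by
    intro c
    set N : Set Γ := ⋃ p ∈ c.support.offDiag, (C p.1 ∩ C p.2) with hN
    have hNk : #N < κ := mk_fin_union hκ _ _ fun p hp => hC _ _ (Finset.mem_offDiag.1 hp).2.2
    obtain ⟨h', hh1, hh2⟩ := ex_lp (𝕜 := 𝕜) (fun γ => if γ ∈ N then 0 else (W c) γ) ‖J c‖ (norm_nonneg _) (by
      intro γ
      by_cases hγ : γ ∈ N
      · rw [if_pos hγ, norm_zero]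
        exact norm_nonneg _
      · rw [if_neg hγ, hW]
        by_cases h1 : ∃ t ∈ c.support, γ ∈ C t
        · obtain ⟨t, ht, hγt⟩ := h1
          rw [Finset.sum_eq_single t]
          · rw [if_pos hγt, mul_one, ← hJ]
            exact lp.norm_apply_le_norm ENNReal.top_ne_zero (J c) t
          · intro s hs hst
            rw [if_neg, mul_zero]
            intro hγs
            apply hγ
            rw [hN]
            simp only [mem_iUnion]
            exact ⟨(s, t), Finset.mem_offDiag.2 ⟨hs, ht, hst⟩, hγs, hγt⟩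
          · intro h
            exact absurd ht h
        · push Not at h1
          rw [Finset.sum_eq_zero fun t ht => by rw [if_neg (h1 t ht), mul_zero], norm_zero]
          exact norm_nonneg _)
    have hmem : W c - h' ∈ A 𝕜 κ hκ Γ := by
      intro δ hδ
      refine lt_of_le_of_lt (mk_le_mk_of_subset ?_) hNk
      intro γ hγ
      by_contra hcon
      have h1 : (W c - h' : Linf 𝕜 Γ) γ = 0 := by
        rw [lp.coeFn_sub, Pi.sub_apply, hh1, if_neg hcon, sub_self]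
      have h2 : δ < ‖(W c - h' : Linf 𝕜 Γ) γ‖ := hγ
      rw [h1, norm_zero] at h2
      exact absurd h2 (not_lt.2 hδ.le)
    have h3 : π (W c - h') = 0 := (hS.ker _).2 ⟨⟨_, hmem⟩, rfl⟩
    rw [map_sub, sub_eq_zero] at h3
    rw [h3]
    exact (π.le_opNorm h').trans (mul_le_mul_of_nonneg_left hh2 (norm_nonneg _))
  obtain ⟨X, hX⟩ : ∃ X : Submodule 𝕜 (Linf 𝕜 T), X = (LinearMap.range J).topologicalClosure := ⟨_, rfl⟩
  have hXc : IsClosed (X : Set (Linf 𝕜 T)) := by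
    rw [hX]
    exact Submodule.isClosed_topologicalClosure _
  have : CompleteSpace X := hXc.completeSpace_coe
  have hJX : ∀ c, J c ∈ X := fun c => by
    rw [hX]
    exact Submodule.le_topologicalClosure _ ⟨c, rfl⟩
  obtain ⟨J', hJ'⟩ : ∃ J' : (T →₀ 𝕜) →ₗ[𝕜] X, ∀ c, (J' c : Linf 𝕜 T) = J c :=
    ⟨J.codRestrict X hJX, fun c => rfl⟩
  have hd : DenseRange J' := by
    intro x
    rw [closure_subtype]
    have h1 : (Subtype.val '' (Set.range J') : Set (Linf 𝕜 T)) = (LinearMap.range J : Set (Linf 𝕜 T)) := by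
      ext z
      constructor
      · rintro ⟨_, ⟨c, rfl⟩, rfl⟩
        exact ⟨c, (hJ' c).symm⟩
      · rintro ⟨c, rfl⟩
        exact ⟨J' c, ⟨c, rfl⟩, hJ' c⟩
    rw [h1]
    have h2 := x.2
    have h3 : ((LinearMap.range J).topologicalClosure : Set (Linf 𝕜 T)) =
        closure (LinearMap.range J : Set (Linf 𝕜 T)) := Submodule.topologicalClosure_coe _
    rw [← h3, ← hX]
    exact h2
  have hext := LinearMap.extendOfNorm_eq (f := π.toLinearMap ∘ₗ W) (e := J') hd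
    ⟨‖π‖, fun c => by
      have h1 : ‖J' c‖ = ‖J c‖ := by rw [← hJ' c]; rfl
      rw [h1]
      exact hb c⟩
  obtain ⟨g, hg⟩ := hI X (Linf 𝕜 T) X.subtypeL 1 (fun x => by
    rw [one_mul]
    exact le_refl _) (LinearMap.extendOfNorm (π.toLinearMap ∘ₗ W) J')
  refine ⟨g, fun t a h ha1 ha2 h1 h2 => ?_⟩
  have h3 : a = X.subtypeL (J' (Finsupp.single t 1)) := by
    apply lp.ext
    funext s
    show a s = (J' (Finsupp.single t 1) : Linf 𝕜 T) s
    rw [hJ', hJ]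
    by_cases hs : s = t
    · subst hs
      rw [ha1, Finsupp.single_eq_same]
    · rw [ha2 s hs, Finsupp.single_eq_of_ne hs]
  rw [h3, hg, hext]
  show π (W (Finsupp.single t 1)) = π h
  have h4 : W (Finsupp.single t 1) = h := by
    apply lp.ext
    funext γ
    rw [hWd, Finsupp.linearCombination_single, one_smul, hχ1]
    by_cases hγ : γ ∈ C t
    · rw [if_pos hγ, h1 γ hγ]
    · rw [if_neg hγ, h2 γ hγ]
  rw [h4]

end Q277.ID.CZ
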