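import Pool.Agent.Q96.ID.Stm

/-!
# Project ID of helper96, job TREE (helper277)
-/

set_option autoImplicit false

open Cardinal Set Q96.ID

namespace Q277.ID.TREE

theorem t_TREE : S_TREE := by
  intro κ hκ hpow Γ hΓ
  obtain ⟨I, _, _, hI, hIio⟩ : ∃ (I : Type) (_ : LinearOrder I) (_ : WellFoundedLT I), #I = κ ∧
      ∀ i : I, #(Iio i) < κ := by
    refine ⟨κ.ord.ToType, inferInstance, inferInstance, ?_, fun i => ?_⟩
    · exact Cardinal.mk_ord_toType κ
    · exact Cardinal.mk_Iio_ord_toType i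
  have hI0 : Infinite I := by
    rw [Cardinal.infinite_iff, hI]
    exact hκ
  -- nodes
  have hN : #(Σ i : I, (Iio i → Bool)) = κ := by
    apply le_antisymm
    · rw [Cardinal.mk_sigma]
      refine (Cardinal.sum_le_mk_mul_iSup _).trans ?_
      have h1 : (⨆ i : I, #(Iio i → Bool)) ≤ κ := by
        refine ciSup_le' fun i => ?_
        rw [← Cardinal.power_def, Cardinal.mk_bool]
        exact hpow _ (hIio i)
      calc #I * (⨆ i : I, #(Iio i → Bool)) ≤ κ * κ := mul_le_mul' hI.le h1
        _ = κ := Cardinal.mul_eq_self hκ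
    · have h1 : Function.Injective (fun i : I => (⟨i, fun _ => false⟩ : Σ i : I, (Iio i → Bool))) := by
        intro i j hij
        exact congrArg Sigma.fst hij
      have h2 := Cardinal.mk_le_of_injective h1
      rwa [hI] at h2
  obtain ⟨e⟩ : Nonempty ((Σ i : I, (Iio i → Bool)) ≃ Γ) := by
    rw [← Cardinal.eq, hN, hΓ]
  have hg : ∀ t : I → Bool, Function.Injective
      (fun i : I => e (⟨i, fun j : Iio i => t j⟩ : Σ i : I, (Iio i → Bool))) := by
    intro t i j hij
    exact congrArg Sigma.fst (e.injective hij)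
  refine ⟨I → Bool, fun t => Set.range
    (fun i : I => e (⟨i, fun j : Iio i => t j⟩ : Σ i : I, (Iio i → Bool))), ?_, ?_, ?_⟩
  · rw [← Cardinal.power_def, Cardinal.mk_bool, hI]
  · intro t
    rw [Cardinal.mk_range_eq _ (hg t), hI]
  · intro s t hst
    obtain ⟨i0, hi0⟩ := Function.ne_iff.1 hst
    have hsub : ((Set.range (fun i : I => e (⟨i, fun j : Iio i => s j⟩ : Σ i : I, (Iio i → Bool))) ∩
        Set.range (fun i : I => e (⟨i, fun j : Iio i => t j⟩ : Σ i : I, (Iio i → Bool)))) : Set Γ) ⊆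
        (fun i : I => e (⟨i, fun j : Iio i => s j⟩ : Σ i : I, (Iio i → Bool))) '' (insert i0 (Iio i0)) := by
      rintro γ ⟨⟨i, rfl⟩, ⟨j, hj⟩⟩
      refine ⟨i, ?_, rfl⟩
      have h1 := e.injective hj
      have h2 : j = i := congrArg Sigma.fst h1
      subst h2
      have h3 : (fun x : Iio j => t x) = fun x : Iio j => s x := eq_of_heq (Sigma.mk.inj h1).2
      by_contra hcon
      have h4 : i0 < j := by
        rcases lt_trichotomy j i0 with h | h | h
        · exact absurd (Or.inr h) hcon
        · exact absurd (Or.inl h) hcon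
        · exact h
      exact hi0 (congrFun h3 ⟨i0, h4⟩).symm
    refine lt_of_le_of_lt (Cardinal.mk_le_mk_of_subset hsub) ?_
    refine lt_of_le_of_lt Cardinal.mk_image_le ?_
    refine lt_of_le_of_lt Cardinal.mk_insert_le ?_
    exact Cardinal.add_lt_of_lt hκ (hIio i0) (lt_of_lt_of_le Cardinal.one_lt_aleph0 hκ)

end Q277.ID.TREE
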